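import Mathlib

/-!
# C43, block E: rays in a 0-hyperbolic real metric space

Two rays `x`, `y` with speeds `lam`, `lam'` and isometries `P`, `Q` that shift them.  If
`d (x n) (y m) - n * lam - m * lam'` is not bounded below then `P` and `Q` commute at some point of
the first ray.
-/

set_option autoImplicit false

namespace Pool.Agent.LF.EE

open Filter Topology

variable {X : Type}

/-- 0-hyperbolic metric -/
structure Hm (d : X → X → ℝ) : Prop where
  refl : ∀ x, d x x = 0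
  symm : ∀ x y, d x y = d y x
  four : ∀ w x y z, d w x + d y z ≤ max (d w y + d x z) (d w z + d x y)

/-- a ray with speed `lam` -/
structure Ray (d : X → X → ℝ) (x : ℕ → X) (lam : ℝ) : Prop where
  pos : 0 < lam
  dist : ∀ n k : ℕ, d (x n) (x (n + k)) = k * lam

theorem Hm.tri {d : X → X → ℝ} (h : Hm d) (x y z : X) : d x z ≤ d x y + d y z := by
  have h1 := h.four x z y y
  rw [h.refl, max_self, h.symm z y] at h1
  linarith

/-- the Busemann sequence is antitone -/
theorem ray_anti {d : X → X → ℝ} (h : Hm d) {x : ℕ → X} {lam : ℝ} (r : Ray d x lam) (u : X) :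
    Antitone fun n : ℕ => d u (x n) - n * lam := by
  apply antitone_nat_of_succ_le
  intro n
  have h1 := h.tri u (x n) (x (n + 1))
  have h2 := r.dist n 1
  push_cast at *
  linarith

theorem ray_bdd {d : X → X → ℝ} (h : Hm d) {x : ℕ → X} {lam : ℝ} (r : Ray d x lam) (u : X)
    (n : ℕ) : - d u (x 0) ≤ d u (x n) - n * lam := by
  have h1 := h.tri (x 0) u (x n)
  have h2 := r.dist 0 n
  rw [zero_add] at h2
  rw [h.symm (x 0) u] at h1
  linarith

/-- the Busemann sequence is eventually constant -/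
theorem ray_ev {d : X → X → ℝ} (h : Hm d) {x : ℕ → X} {lam : ℝ} (r : Ray d x lam) (u : X) :
    ∃ c, ∀ᶠ n : ℕ in atTop, d u (x n) = n * lam + c := by
  set a : ℕ → ℝ := fun n => d u (x n) - n * lam with ha
  have anti : Antitone a := ray_anti h r u
  have bdd : BddBelow (Set.range a) := by
    refine ⟨- d u (x 0), ?_⟩
    rintro _ ⟨n, rfl⟩
    exact ray_bdd h r u n
  have lim := tendsto_atTop_ciInf anti bdd
  have ev : ∀ᶠ n in atTop, a n < (⨅ n, a n) + 2 * lam :=
    lim.eventually (Iio_mem_nhds (by linarith [r.pos]))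
  obtain ⟨N, hN⟩ := eventually_atTop.1 ev
  have stp : ∀ n ≥ N, a (n + 1) ≤ a (n + 2) := by
    intro n hn
    have h1 := h.four u (x (n + 1)) (x n) (x (n + 2))
    have h2 := r.dist n 2
    have h3 := r.dist n 1
    have h4 := r.dist (n + 1) 1
    have h5 := hN n hn
    have h6 := ciInf_le bdd (n + 1)
    rw [h.symm (x (n + 1)) (x n)] at h1
    rw [show n + 1 + 1 = n + 2 from rfl] at h4
    rcases le_max_iff.1 h1 with h7 | h7
    · exfalso
      simp only [ha] at h5 h6
      push_cast at *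
      linarith
    · simp only [ha]
      push_cast at *
      linarith
  refine ⟨a (N + 1), eventually_atTop.2 ⟨N + 1, ?_⟩⟩
  intro n hn
  have h8 : a n = a (N + 1) := by
    induction n, hn using Nat.le_induction with
    | base => rfl
    | succ k hk ih =>
      obtain ⟨j, rfl⟩ : ∃ j, k = j + 1 := ⟨k - 1, by omega⟩
      have h1 := stp j (by omega)
      have h2 := anti (show j + 1 ≤ j + 2 by omega)
      rw [← ih]
      exact le_antisymm h2 h1
  simp only [ha] at h8 ⊢
  linarith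

/-- shifting isometry: the Busemann value drops by the speed -/
theorem bus_shift {d : X → X → ℝ} {x : ℕ → X} {lam : ℝ} {P : X → X}
    (iP : ∀ u v, d (P u) (P v) = d u v) (sP : ∀ n, P (x n) = x (n + 1)) {u : X} {c : ℝ}
    (hu : ∀ᶠ n : ℕ in atTop, d u (x n) = n * lam + c) :
    ∀ᶠ n : ℕ in atTop, d (P u) (x n) = n * lam + (c - lam) := by
  obtain ⟨N, hN⟩ := eventually_atTop.1 hu
  refine eventually_atTop.2 ⟨N + 1, ?_⟩
  intro n hn
  obtain ⟨j, rfl⟩ : ∃ j, n = j + 1 := ⟨n - 1, by omega⟩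
  rw [← sP j, iP, hN j (by omega)]
  push_cast
  ring

/-- the ray itself -/
theorem bus_self {d : X → X → ℝ} {x : ℕ → X} {lam : ℝ} (r : Ray d x lam) (N : ℕ) :
    ∀ᶠ n : ℕ in atTop, d (x N) (x n) = n * lam + (-(N * lam)) := by
  refine eventually_atTop.2 ⟨N, ?_⟩
  intro n hn
  obtain ⟨k, rfl⟩ := Nat.exists_eq_add_of_le hn
  rw [r.dist]
  push_cast
  ring

/-- comparison of the Busemann values of two rays with the same end -/
theorem cmp {d : X → X → ℝ} (h : Hm d) {x y : ℕ → X} {lam lam' : ℝ} (rx : Ray d x lam)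
    (ry : Ray d y lam')
    (ub : ∀ K : ℝ, ∃ n m : ℕ, d (x n) (y m) - n * lam - m * lam' < K)
    {c0 : ℝ} (h0 : ∀ᶠ n : ℕ in atTop, d (y 0) (x n) = n * lam + c0)
    {u : X} {c c' : ℝ} (hc : ∀ᶠ n : ℕ in atTop, d u (x n) = n * lam + c)
    (hc' : ∀ᶠ n : ℕ in atTop, d u (y n) = n * lam' + c') : c' + c0 = c := by
  obtain ⟨n1, m1, h1⟩ := ub (min (c' + c0) c - d u (y 0))
  obtain ⟨n, hn1, hn2, hn3⟩ := ((eventually_ge_atTop n1).and (h0.and hc)).exists
  obtain ⟨m, hm1, hm2⟩ := ((eventually_ge_atTop m1).and hc').exists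
  have h2 : d (x n) (y m) - n * lam - m * lam' ≤ d (x n1) (y m1) - n1 * lam - m1 * lam' := by
    have h3 := ray_anti h rx (y m) hn1
    have h4 := ray_anti h ry (x n1) hm1
    simp only at h3 h4
    rw [h.symm (y m) (x n), h.symm (y m) (x n1)] at h3
    linarith
  have h5 := ry.dist 0 m
  rw [zero_add] at h5
  have h6 := h.four u (y m) (y 0) (x n)
  have h7 := h.four u (x n) (y 0) (y m)
  have h8 := h.symm (y m) (x n)
  have h9 := h.symm (x n) (y 0)
  have h10 := h.symm (y m) (y 0)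
  have h11 := min_le_left (c' + c0) c
  have h12 := min_le_right (c' + c0) c
  rw [hn2, hm2, h8, hn3, h10, h5] at h6
  rw [hn3, h5, hm2, h9, hn2] at h7
  apply le_antisymm
  · rcases le_max_iff.1 h6 with h13 | h13
    · linarith
    · linarith
  · rcases le_max_iff.1 h7 with h13 | h13
    · linarith
    · linarith

/-- the translation length at a point of the ray -/
theorem tl {d : X → X → ℝ} (h : Hm d) {y : ℕ → X} {lam' : ℝ} (ry : Ray d y lam') {Q : X → X}
    (iQ : ∀ u v, d (Q u) (Q v) = d u v) (sQ : ∀ n, Q (y n) = y (n + 1)) {u : X}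
    (hu : ∀ᶠ n : ℕ in atTop, d u (y n) = n * lam' + -(d u (y 0))) : d (Q u) u ≤ lam' := by
  obtain ⟨m, hm1, hm2⟩ := (hu.and (bus_shift iQ sQ hu)).exists
  have h1 := h.four (Q u) u (y 0) (y m)
  have h2 := h.tri (Q u) (y 1) (y 0)
  have h3 := iQ u (y 0)
  rw [sQ] at h3
  have h4 := ry.dist 0 1
  have h5 := ry.dist 0 m
  rw [zero_add] at h4 h5
  rw [zero_add] at h3
  rw [h.symm (y 1) (y 0), h3, h4] at h2
  rw [h5, hm1, hm2] at h1
  have h6 := ry.pos
  push_cast at h2
  rcases le_max_iff.1 h1 with h7 | h7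
  · linarith
  · linarith

/-- main lemma -/
theorem meet {d : X → X → ℝ} (h : Hm d) {x y : ℕ → X} {lam lam' : ℝ} (rx : Ray d x lam)
    (ry : Ray d y lam') {P Q : X → X}
    (iP : ∀ u v, d (P u) (P v) = d u v) (sP : ∀ n, P (x n) = x (n + 1))
    (iQ : ∀ u v, d (Q u) (Q v) = d u v) (sQ : ∀ n, Q (y n) = y (n + 1))
    (ub : ∀ K : ℝ, ∃ n m : ℕ, d (x n) (y m) - n * lam - m * lam' < K) :
    ∃ N : ℕ, d (P (Q (x N))) (Q (P (x N))) ≤ 0 := by
  obtain ⟨c0, h0⟩ := ray_ev h rx (y 0)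
  obtain ⟨N, hN⟩ := eventually_atTop.1 h0
  have tx : ∀ n ≥ N, d (Q (x n)) (x n) ≤ lam' := by
    intro n hn
    apply tl h ry iQ sQ
    obtain ⟨c', hc'⟩ := ray_ev h ry (x n)
    have h1 := cmp h rx ry ub h0 (bus_self rx n) hc'
    have h2 := hN n hn
    rw [h.symm] at h2
    have h3 : c' = -(d (x n) (y 0)) := by linarith
    rw [← h3]
    exact hc'
  refine ⟨N, ?_⟩
  have bw := bus_self rx N
  have bPw := bus_shift iP sP bw
  obtain ⟨c1, hc1⟩ := ray_ev h ry (P (x N))
  have e1 := cmp h rx ry ub h0 bPw hc1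
  have bv' := bus_shift iQ sQ hc1
  obtain ⟨c2, hc2⟩ := ray_ev h rx (Q (P (x N)))
  have e2 := cmp h rx ry ub h0 hc2 bv'
  obtain ⟨c3, hc3⟩ := ray_ev h ry (x N)
  have e3 := cmp h rx ry ub h0 bw hc3
  have bQw' := bus_shift iQ sQ hc3
  obtain ⟨c4, hc4⟩ := ray_ev h rx (Q (x N))
  have e4 := cmp h rx ry ub h0 hc4 bQw'
  have bu := bus_shift iP sP hc4
  obtain ⟨n, hn1, hn2, hn3⟩ := (bw.and (hc2.and bu)).exists
  have f := h.four (P (Q (x N))) (Q (P (x N))) (x N) (x n)
  rw [hn1, hn2, hn3] at f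
  have g1 := h.tri (P (Q (x N))) (P (x N)) (x N)
  rw [iP, sP, h.symm (x (N + 1)) (x N), rx.dist] at g1
  have g2 := tx N le_rfl
  have g3 := h.tri (Q (x (N + 1))) (x (N + 1)) (x N)
  rw [h.symm (x (N + 1)) (x N), rx.dist] at g3
  have g4 := tx (N + 1) (by omega)
  have g5 := sP N
  rw [g5] at f ⊢
  push_cast at g1 g3
  rcases le_max_iff.1 f with h7 | h7
  · linarith
  · linarith

end Pool.Agent.LF.EE
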