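import Mathlib
import Pool.Agent.Lib.LF.Defs
import Pool.Agent.Lib.LF.E.Met

/-!
# C43, block E: proof of `S_E`
-/

set_option autoImplicit false

namespace Pool.Agent.LF.EE

open Filter Topology

variable {E H : Type} [Group H]

/-- the hypotheses of block E -/
structure Hy (π : E → H) (lam : E → ℝ) (L : H → ℝ) : Prop where
  pos : ∀ e, 0 < lam e
  one : L 1 = 0
  inv : ∀ g, L g⁻¹ = L g
  zero : ∀ g, L g = 0 → g = 1
  four : ∀ w x y z, L (w⁻¹ * x) + L (y⁻¹ * z) ≤
      max (L (w⁻¹ * y) + L (x⁻¹ * z)) (L (w⁻¹ * z) + L (x⁻¹ * y))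
  ray : ∀ e (n : ℕ), L (π e ^ n) = n * lam e
  com : ∀ e e' g, Commute (g * π e * g⁻¹) (π e') →
      (e = e' ∧ g ∈ Subgroup.zpowers (π e)) ∨ g * π e * g⁻¹ = (π e')⁻¹

/-- the metric -/
def dd (L : H → ℝ) (x y : H) : ℝ := L (x⁻¹ * y)

theorem dd_left (L : H → ℝ) (h x y : H) : dd L (h * x) (h * y) = dd L x y := by
  unfold dd
  congr 1
  group

theorem Hy.hm {π : E → H} {lam : E → ℝ} {L : H → ℝ} (h : Hy π lam L) : Hm (dd L) where
  refl x := by
    unfold dd
    rw [inv_mul_cancel, h.one]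
  symm x y := by
    unfold dd
    rw [← h.inv]
    congr 1
    group
  four := h.four

/-- the ray of a port -/
theorem Hy.rayP {π : E → H} {lam : E → ℝ} {L : H → ℝ} (h : Hy π lam L) (e : E) (g : H) :
    Ray (dd L) (fun n => g * π e ^ n) (lam e) where
  pos := h.pos e
  dist n k := by
    have h1 : dd L (g * π e ^ n) (g * π e ^ (n + k)) = L (π e ^ k) := by
      unfold dd
      congr 1
      rw [pow_add]
      group
    rw [h1, h.ray]

theorem Hy.nonneg {π : E → H} {lam : E → ℝ} {L : H → ℝ} (h : Hy π lam L) (x y : H) :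
    0 ≤ dd L x y := by
  have h1 := h.hm.tri x y x
  rw [h.hm.refl, h.hm.symm y x] at h1
  linarith

/-- two ports that are not the same port: bounded below -/
theorem Hy.low {π : E → H} {lam : E → ℝ} {L : H → ℝ} (h : Hy π lam L) (e e' : E) (g g' : H)
    (hs : ¬ SP π (.inr (e, g)) (.inr (e', g'))) :
    ∃ K : ℝ, ∀ n m : ℕ, K ≤ dd L (g * π e ^ n) (g' * π e' ^ m) - n * lam e - m * lam e' := by
  by_contra hcon
  push Not at hcon
  have key : ∀ (e : E) (g : H) (n : ℕ), g * π e * g⁻¹ * (g * π e ^ n) = g * π e ^ (n + 1) := by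
    intro e g n
    rw [pow_succ']
    group
  obtain ⟨N, hN⟩ := meet h.hm (h.rayP e g) (h.rayP e' g')
    (P := fun u => g * π e * g⁻¹ * u) (Q := fun u => g' * π e' * g'⁻¹ * u)
    (fun u v => dd_left L _ u v) (key e g) (fun u v => dd_left L _ u v) (key e' g') hcon
  have h0 : dd L (g * π e * g⁻¹ * (g' * π e' * g'⁻¹ * (g * π e ^ N)))
      (g' * π e' * g'⁻¹ * (g * π e * g⁻¹ * (g * π e ^ N))) = 0 :=
    le_antisymm hN (h.nonneg _ _)
  have h1 := h.zero _ h0
  rw [inv_mul_eq_one] at h1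
  have h2 : g * π e * g⁻¹ * (g' * π e' * g'⁻¹) = g' * π e' * g'⁻¹ * (g * π e * g⁻¹) := by
    have h3 : g * π e * g⁻¹ * (g' * π e' * g'⁻¹) * (g * π e ^ N) =
        g' * π e' * g'⁻¹ * (g * π e * g⁻¹) * (g * π e ^ N) := by
      simpa only [mul_assoc] using h1
    exact mul_right_cancel h3
  have h4 : Commute (g'⁻¹ * g * π e * (g'⁻¹ * g)⁻¹) (π e') := by
    have h5 : g'⁻¹ * (g * π e * g⁻¹ * (g' * π e' * g'⁻¹)) * g' =
        g'⁻¹ * (g' * π e' * g'⁻¹ * (g * π e * g⁻¹)) * g' := by rw [h2]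
    show g'⁻¹ * g * π e * (g'⁻¹ * g)⁻¹ * π e' = π e' * (g'⁻¹ * g * π e * (g'⁻¹ * g)⁻¹)
    have h6 : g'⁻¹ * g * π e * (g'⁻¹ * g)⁻¹ * π e' =
        g'⁻¹ * (g * π e * g⁻¹ * (g' * π e' * g'⁻¹)) * g' := by group
    have h7 : π e' * (g'⁻¹ * g * π e * (g'⁻¹ * g)⁻¹) =
        g'⁻¹ * (g' * π e' * g'⁻¹ * (g * π e * g⁻¹)) * g' := by group
    rw [h6, h7, h5]
  rcases h.com e e' (g'⁻¹ * g) h4 with ⟨h5, h6⟩ | h5
  · apply hs
    refine ⟨h5, ?_⟩
    show g⁻¹ * g' ∈ Subgroup.zpowers (π e)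
    have h7 := (Subgroup.zpowers (π e)).inv_mem h6
    rwa [mul_inv_rev, inv_inv] at h7
  · -- opposite directions
    have h6 : ∀ n : ℕ, g'⁻¹ * g * π e ^ n * (g'⁻¹ * g)⁻¹ = (π e' ^ n)⁻¹ := by
      intro n
      rw [← conj_pow, h5, inv_pow]
    have h7 : ∀ n m : ℕ, dd L (g * π e ^ n) (g' * π e' ^ m) =
        dd L g (g' * π e' ^ (n + m)) := by
      intro n m
      rw [← dd_left L (g * π e ^ n * g⁻¹)⁻¹ (g * π e ^ n)]
      have e1 : (g * π e ^ n * g⁻¹)⁻¹ * (g * π e ^ n) = g := by group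
      have e2 : (g * π e ^ n * g⁻¹)⁻¹ * (g' * π e' ^ m) = g' * π e' ^ (n + m) := by
        have e3 : (g * π e ^ n * g⁻¹)⁻¹ = g' * π e' ^ n * g'⁻¹ := by
          have e4 := h6 n
          have e5 : g * π e ^ n * g⁻¹ = g' * (g'⁻¹ * g * π e ^ n * (g'⁻¹ * g)⁻¹) * g'⁻¹ := by
            group
          rw [e5, e4]
          group
        rw [e3, pow_add]
        group
      rw [e1, e2]
    have h8 : ∀ n m : ℕ, dd L (g * π e ^ n) (g' * π e' ^ m) =
        dd L (g * π e ^ (n + m)) g' := by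
      intro n m
      rw [← dd_left L (g' * π e' ^ m * g'⁻¹)⁻¹ (g * π e ^ n)]
      have e1 : (g' * π e' ^ m * g'⁻¹)⁻¹ * (g' * π e' ^ m) = g' := by group
      have e2 : (g' * π e' ^ m * g'⁻¹)⁻¹ * (g * π e ^ n) = g * π e ^ (n + m) := by
        have e3 : (g' * π e' ^ m * g'⁻¹)⁻¹ = g * π e ^ m * g⁻¹ := by
          have e4 := h6 m
          have e5 : g * π e ^ m * g⁻¹ = g' * (g'⁻¹ * g * π e ^ m * (g'⁻¹ * g)⁻¹) * g'⁻¹ := by
            group
          rw [e5, e4]
          group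
        rw [e3, add_comm n m, pow_add]
        group
      rw [e1, e2]
    obtain ⟨n, m, h9⟩ := hcon (-(dd L g g'))
    have r1 := (h.rayP e' g').dist 0 (n + m)
    have r2 := (h.rayP e g).dist 0 (n + m)
    simp only [zero_add, pow_zero, mul_one] at r1 r2
    have t1 := h.hm.tri g' g (g' * π e' ^ (n + m))
    have t2 := h.hm.tri g g' (g * π e ^ (n + m))
    rw [r1, ← h7 n m, h.hm.symm g' g] at t1
    rw [r2, h.hm.symm g' (g * π e ^ (n + m)), ← h8 n m] at t2
    push_cast at t1 t2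
    rcases le_total (lam e) (lam e') with h10 | h10
    · have h11 : (n : ℝ) * lam e ≤ n * lam e' := mul_le_mul_of_nonneg_left h10 (Nat.cast_nonneg n)
      nlinarith
    · have h11 : (m : ℝ) * lam e' ≤ m * lam e := mul_le_mul_of_nonneg_left h10 (Nat.cast_nonneg m)
      nlinarith

/-- the `n`-th point of a generalised point -/
def pt (π : E → H) (n : ℕ) : GP E H → H
  | .inl x => x
  | .inr p => p.2 * π p.1 ^ n

/-- the speed of a generalised point -/
def rt (lam : E → ℝ) : GP E H → ℝ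
  | .inl _ => 0
  | .inr p => lam p.1

/-- the double sequence -/
def AA (π : E → H) (lam : E → ℝ) (L : H → ℝ) (z w : GP E H) (p : ℕ × ℕ) : ℝ :=
  dd L (pt π p.1 z) (pt π p.2 w) - p.1 * rt lam z - p.2 * rt lam w

theorem pt_dist {π : E → H} {lam : E → ℝ} {L : H → ℝ} (h : Hy π lam L) (z : GP E H) (n k : ℕ) :
    dd L (pt π n z) (pt π (n + k) z) = k * rt lam z := by
  rcases z with x | ⟨e, g⟩
  · show dd L x x = k * 0
    rw [h.hm.refl, mul_zero]
  · exact (h.rayP e g).dist n k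

theorem AA_symm {π : E → H} {lam : E → ℝ} {L : H → ℝ} (h : Hy π lam L) (z w : GP E H)
    (p : ℕ × ℕ) : AA π lam L z w p = AA π lam L w z p.swap := by
  unfold AA
  rw [h.hm.symm, Prod.fst_swap, Prod.snd_swap]
  ring

theorem AA_anti1 {π : E → H} {lam : E → ℝ} {L : H → ℝ} (h : Hy π lam L) (z w : GP E H)
    {n n' : ℕ} (hn : n ≤ n') (m : ℕ) : AA π lam L z w (n', m) ≤ AA π lam L z w (n, m) := by
  obtain ⟨k, rfl⟩ := Nat.exists_eq_add_of_le hn
  unfold AA
  have h1 := h.hm.tri (pt π (n + k) z) (pt π n z) (pt π m w)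
  rw [h.hm.symm (pt π (n + k) z) (pt π n z), pt_dist h] at h1
  simp only
  push_cast
  linarith

theorem AA_anti {π : E → H} {lam : E → ℝ} {L : H → ℝ} (h : Hy π lam L) (z w : GP E H)
    {n n' m m' : ℕ} (hn : n ≤ n') (hm : m ≤ m') :
    AA π lam L z w (n', m') ≤ AA π lam L z w (n, m) := by
  refine (AA_anti1 h z w hn m').trans ?_
  rw [AA_symm h z w (n, m'), AA_symm h z w (n, m)]
  exact AA_anti1 h w z hm n

theorem SP_symm {π : E → H} {z w : GP E H} (hs : SP π z w) : SP π w z := by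
  rcases z with x | p <;> rcases w with y | q
  · exact hs
  · exact hs
  · exact hs
  · obtain ⟨h1, h2⟩ := hs
    refine ⟨h1.symm, ?_⟩
    have h3 := (Subgroup.zpowers (π p.1)).inv_mem h2
    rw [mul_inv_rev, inv_inv, h1] at h3
    exact h3

/-- bounded below -/
theorem AA_low {π : E → H} {lam : E → ℝ} {L : H → ℝ} (h : Hy π lam L) (z w : GP E H)
    (hs : ¬ SP π z w) : BddBelow (Set.range (AA π lam L z w)) := by
  have mixed : ∀ (x : H) (q : E × H), BddBelow (Set.range (AA π lam L (.inl x) (.inr q))) := by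
    intro x q
    refine ⟨-(dd L x (q.2 * π q.1 ^ 0)), ?_⟩
    rintro _ ⟨p, rfl⟩
    have h1 := ray_bdd h.hm (h.rayP q.1 q.2) x p.2
    show _ ≤ dd L x (q.2 * π q.1 ^ p.2) - p.1 * 0 - p.2 * lam q.1
    linarith
  rcases z with x | ⟨e, g⟩ <;> rcases w with y | ⟨e', g'⟩
  · refine ⟨dd L x y, ?_⟩
    rintro _ ⟨p, rfl⟩
    show _ ≤ dd L x y - p.1 * 0 - p.2 * 0
    linarith
  · exact mixed _ _
  · obtain ⟨K, hK⟩ := mixed y (e, g)
    refine ⟨K, ?_⟩
    rintro _ ⟨p, rfl⟩
    rw [AA_symm h]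
    exact hK ⟨_, rfl⟩
  · obtain ⟨K, hK⟩ := h.low e e' g g' hs
    refine ⟨K, ?_⟩
    rintro _ ⟨p, rfl⟩
    exact hK p.1 p.2

open Classical in
/-- the extended metric -/
noncomputable def DD (π : E → H) (lam : E → ℝ) (L : H → ℝ) (z w : GP E H) : ℝ :=
  if SP π z w then 0 else ⨅ p : ℕ × ℕ, AA π lam L z w p

theorem DD_neg {π : E → H} {lam : E → ℝ} {L : H → ℝ} {z w : GP E H} (hs : ¬ SP π z w) :
    DD π lam L z w = ⨅ p : ℕ × ℕ, AA π lam L z w p := if_neg hs

theorem DD_pos {π : E → H} {lam : E → ℝ} {L : H → ℝ} {z w : GP E H} (hs : SP π z w) :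
    DD π lam L z w = 0 := if_pos hs

/-- the diagonal tends to `DD` -/
theorem DD_lim {π : E → H} {lam : E → ℝ} {L : H → ℝ} (h : Hy π lam L) {z w : GP E H}
    (hs : ¬ SP π z w) :
    Tendsto (fun n : ℕ => AA π lam L z w (n, n)) atTop (𝓝 (DD π lam L z w)) := by
  rw [DD_neg hs]
  have bd := AA_low h z w hs
  have anti : Antitone (fun n : ℕ => AA π lam L z w (n, n)) := fun n m hnm =>
    AA_anti h z w hnm hnm
  have bd' : BddBelow (Set.range fun n : ℕ => AA π lam L z w (n, n)) := by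
    obtain ⟨K, hK⟩ := bd
    refine ⟨K, ?_⟩
    rintro _ ⟨n, rfl⟩
    exact hK ⟨_, rfl⟩
  have h1 := tendsto_atTop_ciInf anti bd'
  have h2 : (⨅ p : ℕ × ℕ, AA π lam L z w p) = ⨅ n : ℕ, AA π lam L z w (n, n) := by
    apply le_antisymm
    · exact le_ciInf fun n => ciInf_le bd (n, n)
    · refine le_ciInf fun p => ?_
      refine (ciInf_le bd' (max p.1 p.2)).trans ?_
      exact AA_anti h z w (le_max_left _ _) (le_max_right _ _)
  rw [h2]
  exact h1

theorem pt_lm (π : E → H) (n : ℕ) (h : H) (z : GP E H) : pt π n (lm h z) = h * pt π n z := by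
  rcases z with x | p
  · rfl
  · show h * p.2 * π p.1 ^ n = h * (p.2 * π p.1 ^ n)
    rw [mul_assoc]

theorem rt_lm (lam : E → ℝ) (h : H) (z : GP E H) : rt lam (lm h z) = rt lam z := by
  rcases z with x | p <;> rfl

theorem SP_lm {π : E → H} (h : H) (z w : GP E H) : SP π (lm h z) (lm h w) ↔ SP π z w := by
  rcases z with x | p <;> rcases w with y | q
  · exact Iff.rfl
  · exact Iff.rfl
  · exact Iff.rfl
  · show (p.1 = q.1 ∧ (h * p.2)⁻¹ * (h * q.2) ∈ Subgroup.zpowers (π p.1)) ↔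
      (p.1 = q.1 ∧ p.2⁻¹ * q.2 ∈ Subgroup.zpowers (π p.1))
    have h1 : (h * p.2)⁻¹ * (h * q.2) = p.2⁻¹ * q.2 := by group
    rw [h1]

theorem AA_lm (π : E → H) (lam : E → ℝ) (L : H → ℝ) (h : H) (z w : GP E H) :
    AA π lam L (lm h z) (lm h w) = AA π lam L z w := by
  funext p
  unfold AA
  rw [pt_lm, pt_lm, rt_lm, rt_lm, dd_left]

/-- the same port after a shift -/
theorem SP_shift {π : E → H} (e : E) (g : H) (z : GP E H) :
    SP π (.inr (e, g * π e)) z ↔ SP π (.inr (e, g)) z := by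
  rcases z with x | q
  · exact Iff.rfl
  · show (e = q.1 ∧ (g * π e)⁻¹ * q.2 ∈ Subgroup.zpowers (π e)) ↔
      (e = q.1 ∧ g⁻¹ * q.2 ∈ Subgroup.zpowers (π e))
    have h1 : (g * π e)⁻¹ * q.2 = (π e)⁻¹ * (g⁻¹ * q.2) := by group
    rw [h1, Subgroup.mul_mem_cancel_left _
      ((Subgroup.zpowers (π e)).inv_mem (Subgroup.mem_zpowers (π e)))]

theorem AA_shift (π : E → H) (lam : E → ℝ) (L : H → ℝ) (e : E) (g : H) (z : GP E H)
    (n m : ℕ) : AA π lam L (.inr (e, g * π e)) z (n, m) =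
      AA π lam L (.inr (e, g)) z (n + 1, m) + lam e := by
  unfold AA
  have h1 : pt π n (.inr (e, g * π e)) = pt π (n + 1) (.inr (e, g) : GP E H) := by
    show g * π e * π e ^ n = g * π e ^ (n + 1)
    rw [pow_succ', mul_assoc]
  have h2 : rt lam (.inr (e, g * π e) : GP E H) = lam e := rfl
  have h3 : rt lam (.inr (e, g) : GP E H) = lam e := rfl
  simp only [h1, h2, h3]
  push_cast
  ring

/-- the diagonal of the shifted sequence -/
theorem lim_shift {π : E → H} {lam : E → ℝ} {L : H → ℝ} (h : Hy π lam L) {z w : GP E H}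
    (hs : ¬ SP π z w) :
    Tendsto (fun n : ℕ => AA π lam L z w (n + 1, n)) atTop (𝓝 (DD π lam L z w)) := by
  have h1 := DD_lim h hs
  have h2 := (tendsto_add_atTop_iff_nat 1).2 h1
  refine tendsto_of_tendsto_of_tendsto_of_le_of_le h2 h1 ?_ ?_
  · intro n
    exact AA_anti h z w le_rfl (Nat.le_succ n)
  · intro n
    exact AA_anti h z w (Nat.le_succ n) le_rfl

theorem pS_E : S_E := by
  intro E H _ bar π lam L hbb hbn hpos hlb hone hinv hzero hfour hray hcom
  have h : Hy π lam L := ⟨hpos, hone, hinv, hzero, hfour, hray, hcom⟩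
  refine ⟨DD π lam L, ?_, ?_⟩
  · refine ⟨hbb, hbn, hpos, hlb, ?_, ?_, ?_, ?_, ?_⟩
    · intro x
      have hs : ¬ SP π (.inl x : GP E H) (.inl x) := id
      rw [DD_neg hs]
      have h1 : AA π lam L (.inl x) (.inl x) = fun _ => 0 := by
        funext p
        show dd L x x - p.1 * 0 - p.2 * 0 = 0
        rw [h.hm.refl]
        ring
      rw [h1, ciInf_const]
    · intro z w
      by_cases hs : SP π z w
      · rw [DD_pos hs, DD_pos (SP_symm hs)]
      · have hs' : ¬ SP π w z := fun hc => hs (SP_symm hc)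
        have h1 := DD_lim h hs
        have h2 := DD_lim h hs'
        refine tendsto_nhds_unique h1 (h2.congr fun n => ?_)
        rw [AA_symm h w z]
        rfl
    · intro g z w
      by_cases hs : SP π z w
      · rw [DD_pos hs, DD_pos ((SP_lm g z w).2 hs)]
      · have hs' : ¬ SP π (lm g z) (lm g w) := fun hc => hs ((SP_lm g z w).1 hc)
        rw [DD_neg hs, DD_neg hs', AA_lm]
    · intro e g z hs
      have hs' : ¬ SP π (.inr (e, g * π e)) z := fun hc => hs ((SP_shift e g z).1 hc)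
      have h1 := DD_lim h hs'
      have h2 := (lim_shift h hs).add_const (lam e)
      refine tendsto_nhds_unique h1 (h2.congr fun n => ?_)
      rw [AA_shift]
    · intro w x y z h1 h2 h3 h4 h5 h6
      have l1 := DD_lim h h1
      have l2 := DD_lim h h2
      have l3 := DD_lim h h3
      have l4 := DD_lim h h4
      have l5 := DD_lim h h5
      have l6 := DD_lim h h6
      refine le_of_tendsto_of_tendsto' (l1.add l6) ((l2.add l5).max (l3.add l4)) fun n => ?_
      have f := h.four (pt π n w) (pt π n x) (pt π n y) (pt π n z)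
      simp only [AA, dd]
      rcases le_max_iff.1 f with f1 | f1
      · refine le_max_of_le_left ?_
        linarith
      · refine le_max_of_le_right ?_
        linarith
  · intro x y
    have hs : ¬ SP π (.inl x : GP E H) (.inl y) := id
    rw [DD_neg hs]
    have h1 : AA π lam L (.inl x) (.inl y) = fun _ => L (x⁻¹ * y) := by
      funext p
      show dd L x y - p.1 * 0 - p.2 * 0 = L (x⁻¹ * y)
      unfold dd
      ring
    rw [h1, ciInf_const]

end Pool.Agent.LF.EE
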